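import Pool.Agent.MP_66cee2_co.C3.Spec

/-
Rows Cap and Mid: a thick cap in the lune, and the sphere around the midpoint.
-/

namespace Pool.Agent.MP_66cee2_co.C3

open Set Metric Module Pool.Agent.MP_66cee2_co.X Pool.Agent.MP_66cee2_co.D
open Pool.Agent.MP_66cee2_co.TR Pool.Agent.MP_66cee2_co.Q
open scoped RealInnerProductSpace

namespace Capx

theorem nsq {d : ℕ} (v w : E d) (c : ℝ) :
    ‖v + c • w‖ ^ 2 = ‖v‖ ^ 2 + 2 * c * ⟪v, w⟫ + c ^ 2 * ‖w‖ ^ 2 := by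
  rw [norm_add_sq_real, real_inner_smul_right, norm_smul, mul_pow, Real.norm_eq_abs, sq_abs]
  ring

theorem lune {d : ℕ} {a b y : E d} (h1 : ‖y - b‖ ^ 2 < 1) (h2 : 1 < ‖y - a‖ ^ 2) :
    y ∈ Lune a b := by
  refine ⟨?_, ?_⟩
  · nlinarith [norm_nonneg (y - b)]
  · nlinarith [norm_nonneg (y - a)]

theorem lune' {d : ℕ} {o e y : E d} {h : ℝ} (he : ‖e‖ = 1)
    (h1 : ‖y - o‖ ^ 2 - 2 * h * ⟪y - o, e⟫ + h ^ 2 < 1)
    (h2 : 1 < ‖y - o‖ ^ 2 + 2 * h * ⟪y - o, e⟫ + h ^ 2) :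
    y ∈ Lune (o - h • e) (o + h • e) := by
  have e1 : y - (o + h • e) = (y - o) + (-h) • e := by module
  have e2 : y - (o - h • e) = (y - o) + h • e := by module
  refine lune ?_ ?_
  · rw [e1, nsq, he]; linarith
  · rw [e2, nsq, he]; linarith

theorem arith (h x t : ℝ) (h0 : 0 < h) (h1 : h ≤ 1 / 20) (x0 : 0 ≤ x) (x1 : x ≤ 1) (k2 : 0 ≤ t)
    (k3 : t ≤ 1) (T : ℝ) (hT : T = √(1 - h ^ 2 - 9 / 16 * x ^ 2) + h / 10 * t) :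
    9 / 16 * x ^ 2 + T ^ 2 - 2 * h * T + h ^ 2 < 1 ∧ 1 < 9 / 16 * x ^ 2 + T ^ 2 + 2 * h * T + h ^ 2 ∧
      199 / 200 ≤ 9 / 16 * x ^ 2 + T ^ 2 ∧ 9 / 16 * x ^ 2 + T ^ 2 ≤ 51 / 50 ∧ 16 / 25 ≤ T := by
  have hh : h ^ 2 ≤ 1 / 400 := by nlinarith
  have n1 : x ^ 2 ≤ 1 := by nlinarith
  have n0 : 0 ≤ x ^ 2 := sq_nonneg _
  have g0 : 0 ≤ h ^ 2 := sq_nonneg _
  obtain ⟨H, hH⟩ : ∃ H, H = √(1 - h ^ 2 - 9 / 16 * x ^ 2) := ⟨_, rfl⟩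
  have H0 : 0 ≤ H := hH ▸ Real.sqrt_nonneg _
  have H2 : H ^ 2 = 1 - h ^ 2 - 9 / 16 * x ^ 2 := hH ▸ Real.sq_sqrt (by linarith)
  have H3 : 16 / 25 ≤ H := abs_le_of_sq_le_sq' (by linarith) H0 |>.2
  have H4 : H ≤ 1 := abs_le_of_sq_le_sq' (by linarith) zero_le_one |>.2
  obtain ⟨s, hs⟩ : ∃ s, s = h / 10 * t := ⟨_, rfl⟩
  have s0 : 0 ≤ s := hs ▸ mul_nonneg (by linarith) k2
  have s1 : s ≤ h / 10 := hs ▸ mul_le_of_le_one_right (by linarith) k3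
  have e4 : T = H + s := by rw [hT, hH, hs]
  have e5 : 9 / 16 * x ^ 2 + T ^ 2 = 1 - h ^ 2 + 2 * (H * s) + s * s := by rw [e4]; linarith
  have m0 : 0 ≤ H * s := mul_nonneg H0 s0
  have m1 : H * s ≤ s := mul_le_of_le_one_left s0 H4
  have m2 : s * s ≤ s := mul_le_of_le_one_left s0 (by linarith)
  have m4 : 0 ≤ s * s := mul_nonneg s0 s0
  have m3 : h * (16 / 25) ≤ h * T := mul_le_mul_of_nonneg_left (by linarith) h0.le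
  refine ⟨?_, ?_, ?_, ?_, ?_⟩ <;> linarith

theorem cap {d : ℕ} (o e : E d) (h : ℝ) (he : ‖e‖ = 1) (h0 : 0 < h) (h1 : h ≤ 1 / 20) :
    ∃ (r : ℝ) (F : Submodule ℝ (E d)) (φ : F × ℝ → E d), 0 < r ∧
      99 / 100 ≤ r ^ 2 ∧ r ^ 2 ≤ 1 ∧
      (∀ y, ‖y - o‖ = r → 0 < ⟪y - o, e⟫ → y ∈ Lune (o - h • e) (o + h • e)) ∧
      d - 1 ≤ finrank ℝ F ∧ Continuous φ ∧
      (∀ p ∈ Cyl F, φ p ∈ Lune (o - h • e) (o + h • e) ∧ 199 / 200 ≤ ‖φ p - o‖ ^ 2 ∧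
        ‖φ p - o‖ ^ 2 ≤ 51 / 50 ∧ 16 / 25 ≤ ⟪φ p - o, e⟫) ∧
      (∀ p ∈ Cyl F, ∀ q ∈ Cyl F, ‖p.1‖ = 1 → ‖q.1‖ = 1 → ‖φ p - φ q‖ ≤ 1 → 0 < ⟪p.1, q.1⟫) ∧
      ∀ p ∈ Cyl F, ∀ q ∈ Cyl F, p.2 = 0 → q.2 = 1 → φ p ≠ φ q := by
  have hh : h ^ 2 ≤ 1 / 400 := by nlinarith
  have hp : 0 < 1 - h ^ 2 := by linarith
  have hr : √(1 - h ^ 2) ^ 2 = 1 - h ^ 2 := Real.sq_sqrt hp.le
  have e0 : e ≠ 0 := fun k => by rw [k, norm_zero] at he; exact zero_ne_one he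
  let F : Submodule ℝ (E d) := (ℝ ∙ e)ᗮ
  let T : F × ℝ → ℝ := fun p => √(1 - h ^ 2 - 9 / 16 * ‖p.1‖ ^ 2) + h / 10 * p.2
  let φ : F × ℝ → E d := fun p => o + ((3 / 4 : ℝ) • (p.1 : E d) + T p • e)
  have ort : ∀ x : F, ⟪(x : E d), e⟫ = 0 := fun x =>
    Submodule.mem_orthogonal_singleton_iff_inner_left.1 x.2
  have pyth : ∀ (x : F) (c : ℝ),
      ‖(3 / 4 : ℝ) • (x : E d) + c • e‖ ^ 2 = 9 / 16 * ‖x‖ ^ 2 + c ^ 2 := fun x c => by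
    rw [nsq, real_inner_smul_left, ort, he, norm_smul, mul_pow, Real.norm_eq_abs, sq_abs,
      Submodule.coe_norm]
    ring
  have dif : ∀ p q : F × ℝ,
      ‖φ p - φ q‖ ^ 2 = 9 / 16 * ‖p.1 - q.1‖ ^ 2 + (T p - T q) ^ 2 := fun p q => by
    have e1 : φ p - φ q = (3 / 4 : ℝ) • ((p.1 - q.1 : F) : E d) + (T p - T q) • e := by
      simp only [φ, Submodule.coe_sub]; module
    rw [e1, pyth]
  refine ⟨√(1 - h ^ 2), F, φ, Real.sqrt_pos.2 hp, by linarith, by nlinarith, ?_, ?_, ?_, ?_, ?_, ?_⟩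
  · intro y k1 k2
    have k3 : 0 < h * ⟪y - o, e⟫ := mul_pos h0 k2
    refine lune' he ?_ ?_ <;> rw [k1, hr] <;> linarith
  · have f1 := Submodule.finrank_add_finrank_orthogonal (ℝ ∙ e)
    rw [finrank_span_singleton e0, finrank_euclideanSpace_fin] at f1
    show d - 1 ≤ finrank ℝ (ℝ ∙ e)ᗮ
    omega
  · simp only [φ, T]
    fun_prop
  · rintro p ⟨k1, k2, k3⟩
    have e1 : φ p - o = (3 / 4 : ℝ) • (p.1 : E d) + T p • e := by simp only [φ]; module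
    have e2 : ⟪φ p - o, e⟫ = T p := by
      rw [e1, inner_add_left, real_inner_smul_left, real_inner_smul_left, ort,
        real_inner_self_eq_norm_sq, he]
      ring
    have e3 : ‖φ p - o‖ ^ 2 = 9 / 16 * ‖p.1‖ ^ 2 + T p ^ 2 := by rw [e1, pyth]
    obtain ⟨c1, c2, c3, c4, c5⟩ := arith h ‖p.1‖ p.2 h0 h1 (norm_nonneg _) k1 k2 k3 (T p) rfl
    refine ⟨lune' he ?_ ?_, ?_, ?_, ?_⟩
    · rw [e3, e2]; exact c1
    · rw [e3, e2]; exact c2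
    · rw [e3]; exact c3
    · rw [e3]; exact c4
    · rw [e2]; exact c5
  · intro p _ q _ k1 k2 k3
    have e1 := dif p q
    rw [norm_sub_sq_real p.1 q.1, k1, k2] at e1
    have e2 : ‖φ p - φ q‖ ^ 2 ≤ 1 := pow_le_one₀ (norm_nonneg _) k3
    linarith [sq_nonneg (T p - T q)]
  · intro p _ q _ k1 k2 k3
    have e1 := dif p q
    rw [k3, sub_self, norm_zero] at e1
    have e2 : ‖p.1 - q.1‖ ^ 2 = 0 := by
      linarith [sq_nonneg (T p - T q), sq_nonneg ‖p.1 - q.1‖]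
    have e3 : p.1 = q.1 := sub_eq_zero.1 (norm_eq_zero.1 (pow_eq_zero_iff two_ne_zero |>.1 e2))
    have e4 : T p - T q = -(h / 10) := by simp only [T, e3, k1, k2]; ring
    rw [e2, e4] at e1
    have e5 : 0 < (-(h / 10)) ^ 2 := by rw [neg_sq]; positivity
    linarith

end Capx

open Capx

theorem sCap : SCap := by
  intro d a b hab h1
  have n0 : 0 < ‖b - a‖ := norm_pos_iff.2 (sub_ne_zero.2 hab.symm)
  have n1 : ‖b - a‖ ≤ 1 / 10 := by rwa [norm_sub_rev]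
  have he : ‖‖b - a‖⁻¹ • (b - a)‖ = 1 := norm_smul_inv_norm (sub_ne_zero.2 hab.symm)
  have e0 : (‖b - a‖ / 2) • ‖b - a‖⁻¹ • (b - a) = (1 / 2 : ℝ) • (b - a) := by
    rw [smul_smul]; congr 1; field_simp
  have ea : (1 / 2 : ℝ) • (a + b) - (‖b - a‖ / 2) • ‖b - a‖⁻¹ • (b - a) = a := by
    rw [e0]; module
  have eb : (1 / 2 : ℝ) • (a + b) + (‖b - a‖ / 2) • ‖b - a‖⁻¹ • (b - a) = b := by
    rw [e0]; module
  obtain ⟨r, F, φ, k⟩ := cap ((1 / 2 : ℝ) • (a + b)) (‖b - a‖⁻¹ • (b - a)) (‖b - a‖ / 2) he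
    (by linarith) (by linarith)
  rw [ea, eb] at k
  exact ⟨_, _, r, F, φ, he, k⟩

theorem sMid : SMid := by
  intro d a b o e hab h1 a1 a2 a3 b1 b2 b3
  have n0 : 0 ≤ ‖b - a‖ := norm_nonneg _
  have n1 : ‖b - a‖ ≤ 1 / 10 := by rwa [norm_sub_rev]
  have n2 : ‖b - a‖ ^ 2 ≤ 1 / 100 := by nlinarith
  have n3 : 0 ≤ ‖b - a‖ ^ 2 := sq_nonneg _
  have hp : 0 < 1 - ‖b - a‖ ^ 2 / 4 := by linarith
  have hr : √(1 - ‖b - a‖ ^ 2 / 4) ^ 2 = 1 - ‖b - a‖ ^ 2 / 4 := Real.sq_sqrt hp.le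
  have ea : ∀ y : E d, ‖y - a‖ ^ 2 = ‖y - (1 / 2 : ℝ) • (a + b)‖ ^ 2 +
      ⟪y - (1 / 2 : ℝ) • (a + b), b - a⟫ + ‖b - a‖ ^ 2 / 4 := fun y => by
    have : y - a = (y - (1 / 2 : ℝ) • (a + b)) + (1 / 2 : ℝ) • (b - a) := by module
    rw [this, nsq]; ring
  have eb : ∀ y : E d, ‖y - b‖ ^ 2 = ‖y - (1 / 2 : ℝ) • (a + b)‖ ^ 2 -
      ⟪y - (1 / 2 : ℝ) • (a + b), b - a⟫ + ‖b - a‖ ^ 2 / 4 := fun y => by
    have : y - b = (y - (1 / 2 : ℝ) • (a + b)) + (-(1 / 2) : ℝ) • (b - a) := by module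
    rw [this, nsq]; ring
  have oa := ea o
  have ob := eb o
  rw [norm_sub_rev o a, norm_sub_rev o] at oa
  rw [norm_sub_rev o b, norm_sub_rev o] at ob
  refine ⟨(1 / 2 : ℝ) • (a + b), b - a, √(1 - ‖b - a‖ ^ 2 / 4), sub_ne_zero.2 hab.symm,
    Real.sqrt_pos.2 hp, by linarith, by linarith, by linarith, by linarith, ?_, ?_⟩
  · have : (1 / 2 : ℝ) • (a + b) - o = (1 / 2 : ℝ) • (a - o) + (1 / 2 : ℝ) • (b - o) := by module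
    rw [this, inner_add_left, real_inner_smul_left, real_inner_smul_left]
    linarith
  · intro y k1 k2
    have ya := ea y
    have yb := eb y
    rw [k1, hr] at ya yb
    rcases lt_or_gt_of_ne k2 with k | k
    · exact Or.inr (lune (by linarith) (by linarith))
    · exact Or.inl (lune (by linarith) (by linarith))

end Pool.Agent.MP_66cee2_co.C3
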