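import Pool.Agent.MP_66cee2_co.C3.Spec

/-
Row Circ: an arc on the circle of common neighbours.
-/

namespace Pool.Agent.MP_66cee2_co.C3

open Set Metric Module Pool.Agent.MP_66cee2_co.X Pool.Agent.MP_66cee2_co.D
open scoped RealInnerProductSpace

namespace Circx

/-- a line meets a circle in at most two points. -/
theorem three {A B C R x₁ y₁ x₂ y₂ x₃ y₃ : ℝ} (h1 : x₁ ^ 2 + y₁ ^ 2 = R) (h2 : x₂ ^ 2 + y₂ ^ 2 = R)
    (h3 : x₃ ^ 2 + y₃ ^ 2 = R) (l1 : A + B * x₁ + C * y₁ = 0) (l2 : A + B * x₂ + C * y₂ = 0)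
    (l3 : A + B * x₃ + C * y₃ = 0) (a : y₁ < y₂) (b : y₂ < y₃) : A = 0 ∧ B = 0 ∧ C = 0 := by
  have q : ∀ x y : ℝ, x ^ 2 + y ^ 2 = R → A + B * x + C * y = 0 →
      (B ^ 2 + C ^ 2) * y ^ 2 + 2 * A * C * y + (A ^ 2 - B ^ 2 * R) = 0 := by
    intro x y h l
    have e : A = -(B * x) - C * y := by linarith
    rw [← h, e]
    ring
  have q1 := q _ _ h1 l1
  have q2 := q _ _ h2 l2
  have q3 := q _ _ h3 l3
  have r1 : (B ^ 2 + C ^ 2) * (y₁ + y₂) + 2 * A * C = 0 :=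
    mul_left_cancel₀ (sub_ne_zero.2 a.ne) (by linarith)
  have r2 : (B ^ 2 + C ^ 2) * (y₂ + y₃) + 2 * A * C = 0 :=
    mul_left_cancel₀ (sub_ne_zero.2 b.ne) (by linarith)
  have r3 : B ^ 2 + C ^ 2 = 0 :=
    mul_left_cancel₀ (sub_ne_zero.2 (a.trans b).ne) (by linarith)
  have hB : B = 0 := by nlinarith [sq_nonneg B, sq_nonneg C]
  have hC : C = 0 := by nlinarith [sq_nonneg B, sq_nonneg C]
  refine ⟨?_, hB, hC⟩
  rw [hB, hC] at l1
  linarith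

theorem nsq {d : ℕ} {z p q : E d} (hp : ‖p‖ = 1) (hq : ‖q‖ = 1) (zp : ⟪z, p⟫ = 0)
    (zq : ⟪z, q⟫ = 0) (pq : ⟪p, q⟫ = 0) (l x y : ℝ) :
    ‖l • z + x • p + y • q‖ ^ 2 = l ^ 2 * ‖z‖ ^ 2 + x ^ 2 + y ^ 2 := by
  rw [norm_add_sq_real, norm_add_sq_real]
  simp only [norm_smul, inner_add_left, real_inner_smul_left, real_inner_smul_right, zp, zq, pq,
    hp, hq, Real.norm_eq_abs, mul_pow, sq_abs]
  ring

theorem eq_of_sq {a r : ℝ} (ha : 0 ≤ a) (hr : 0 < r) (h : a ^ 2 = r ^ 2) : a = r :=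
  (pow_left_inj₀ ha hr.le two_ne_zero).1 h

end Circx

open Circx in
theorem sCirc (hF : SFr) (hN : SNb) : SCirc := by
  intro d o o' e e' r r' U B hd he he' hU r0 r0' r1 r2 r1' r2' s1 s2 hz hin hB
  obtain ⟨z, hzd⟩ : ∃ z, z = o' - o := ⟨_, rfl⟩
  rw [← hzd] at s1 s2 hz
  obtain ⟨p, κ, p1, p2, κ0, p3⟩ := hF d (Submodule.span ℝ {z}) e
    (lt_of_le_of_lt (finrank_span_le_card ({z} : Set (E d))) (by simp; omega))
  have f2 : finrank ℝ (Submodule.span ℝ ({z, p} : Set (E d))) ≤ 2 :=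
    (finrank_span_le_card ({z, p} : Set (E d))).trans (by
      simpa using Finset.card_le_two (a := z) (b := p))
  obtain ⟨q, κ', q1, q2, -, q3⟩ := hF d (Submodule.span ℝ {z, p}) e' (by omega)
  have zp : ⟪z, p⟫ = 0 := p2 z (Submodule.subset_span rfl)
  have zq : ⟪z, q⟫ = 0 := q2 z (Submodule.subset_span (by simp))
  have pq : ⟪p, q⟫ = 0 := q2 p (Submodule.subset_span (by simp))
  obtain ⟨α, hα⟩ := Submodule.mem_span_singleton.1 p3
  have ee : e = α • z + κ • p := by rw [hα]; abel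
  have pe : ⟪p, e⟫ = κ := by
    rw [ee, inner_add_right, real_inner_smul_right, real_inner_smul_right, real_inner_comm,
      zp, real_inner_self_eq_norm_sq, p1]
    ring
  have qe : ⟪q, e⟫ = 0 := by
    rw [ee, inner_add_right, real_inner_smul_right, real_inner_smul_right, real_inner_comm, zq,
      real_inner_comm, pq]
    ring
  have κ1 : κ ≤ 1 := by
    have := real_inner_le_norm p e
    rwa [pe, p1, he, mul_one] at this
  have nz : ⟪z, e'⟫ = 0 → ⟪p, e'⟫ = 0 → ⟪q, e'⟫ = 0 → False := fun a1 a2 a3 => by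
    obtain ⟨β, γ, hβ⟩ := Submodule.mem_span_pair.1 q3
    have e1 : e' = β • z + γ • p + κ' • q := by rw [hβ]; abel
    refine he' (inner_self_eq_zero (𝕜 := ℝ).1 ?_)
    nth_rewrite 1 [e1]
    rw [inner_add_left, inner_add_left, real_inner_smul_left, real_inner_smul_left,
      real_inner_smul_left, a1, a2, a3]
    ring
  have z0 : 0 < ‖z‖ ^ 2 := by linarith
  obtain ⟨l, hl⟩ : ∃ l : ℝ, 2 * l * ‖z‖ ^ 2 = r ^ 2 - r' ^ 2 + ‖z‖ ^ 2 :=
    ⟨(r ^ 2 - r' ^ 2 + ‖z‖ ^ 2) / (2 * ‖z‖ ^ 2), by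
      rw [mul_right_comm, mul_div_cancel₀ _ (by linarith)]⟩
  have l1 : 49 / 100 ≤ l := by
    by_contra h
    nlinarith [not_le.1 h]
  have l2 : l ≤ 253 / 500 := by
    by_contra h
    nlinarith [not_le.1 h]
  obtain ⟨R, hR⟩ : ∃ R : ℝ, R = r ^ 2 - l ^ 2 * ‖z‖ ^ 2 := ⟨_, rfl⟩
  have R1 : 727 / 1000 ≤ R := by
    have : l ^ 2 ≤ (253 / 500) ^ 2 := pow_le_pow_left₀ (by linarith) l2 2
    nlinarith
  have R2 : R ≤ 1 := by nlinarith [mul_nonneg (sq_nonneg l) z0.le]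
  have c0 : 313 / 1000 ≤ l * ⟪z, e⟫ := by nlinarith
  obtain ⟨P, hP⟩ : ∃ P : ℝ → ℝ → E d, P = fun x y => o + (l • z + x • p + y • q) := ⟨_, rfl⟩
  have Po : ∀ x y, P x y - o = l • z + x • p + y • q := fun x y => by
    simp only [hP]
    abel
  have Po' : ∀ x y, P x y - o' = (l - 1) • z + x • p + y • q := fun x y => by
    simp only [hP, sub_smul, one_smul, hzd]
    abel
  have PP : ∀ x y x' y', ‖P x y - P x' y'‖ ^ 2 = (x - x') ^ 2 + (y - y') ^ 2 := fun x y x' y' => by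
    have : P x y - P x' y' = (0 : ℝ) • z + (x - x') • p + (y - y') • q := by
      simp only [hP, sub_smul, zero_smul]
      abel
    rw [this, nsq p1 q1 zp zq pq]
    ring
  have n1 : ∀ x y, x ^ 2 + y ^ 2 = R → ‖P x y - o‖ = r := fun x y h =>
    eq_of_sq (norm_nonneg _) r0 (by rw [Po, nsq p1 q1 zp zq pq]; linarith)
  have n2 : ∀ x y, x ^ 2 + y ^ 2 = R → ‖P x y - o'‖ = r' := fun x y h =>
    eq_of_sq (norm_nonneg _) r0' (by rw [Po', nsq p1 q1 zp zq pq]; nlinarith)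
  have i1 : ∀ x y, ⟪P x y - o, e⟫ = l * ⟪z, e⟫ + κ * x := fun x y => by
    rw [Po, inner_add_left, inner_add_left, real_inner_smul_left, real_inner_smul_left,
      real_inner_smul_left, pe, qe]
    ring
  have i2 : ∀ x y, ⟪P x y - o', e'⟫ = (l - 1) * ⟪z, e'⟫ + ⟪p, e'⟫ * x + ⟪q, e'⟫ * y :=
    fun x y => by
      rw [Po', inner_add_left, inner_add_left, real_inner_smul_left, real_inner_smul_left,
        real_inner_smul_left]
      ring
  have inU : ∀ x y, x ^ 2 + y ^ 2 = R → -(3 / 10) ≤ x → P x y ∈ U := fun x y h hx =>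
    hin _ (n1 x y h) (by rw [i1]; nlinarith)
  have nb : ∀ x y, x ^ 2 + y ^ 2 = R → -(3 / 10) ≤ x → ∃ m : E d, ‖m‖ = 1 ∧ P x y + m ∈ B := by
    intro x y h hx
    obtain ⟨c, hc⟩ : ∃ c : ℝ, (2 - 2 * c) * R = 1 := ⟨1 - 1 / (2 * R), by field_simp; ring⟩
    have c1 : 0 ≤ c := by
      by_contra h
      nlinarith [not_le.1 h]
    have c2 : c ≤ 1 := by
      by_contra h
      nlinarith [not_le.1 h]
    obtain ⟨σ, hσ, hy⟩ : ∃ σ : ℝ, σ ^ 2 = 1 - c ^ 2 ∧ σ * y ≤ 0 := by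
      have h0 : √(1 - c ^ 2) ^ 2 = 1 - c ^ 2 := Real.sq_sqrt (by nlinarith)
      rcases le_total (√(1 - c ^ 2) * y) 0 with h | h
      · exact ⟨_, h0, h⟩
      · exact ⟨-√(1 - c ^ 2), by rw [neg_sq, h0], by linarith⟩
    have k1 : (c * x - σ * y) ^ 2 + (c * y + σ * x) ^ 2 = R := by
      have : (c * x - σ * y) ^ 2 + (c * y + σ * x) ^ 2 = (c ^ 2 + σ ^ 2) * (x ^ 2 + y ^ 2) := by
        ring
      rw [this, hσ, h]
      ring
    have k2 : ‖P (c * x - σ * y) (c * y + σ * x) - P x y‖ = 1 := by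
      refine eq_of_sq (norm_nonneg _) one_pos ?_
      have : (c * x - σ * y - x) ^ 2 + (c * y + σ * x - y) ^ 2 =
          ((c - 1) ^ 2 + σ ^ 2) * (x ^ 2 + y ^ 2) := by ring
      rw [PP, this, hσ, h]
      linarith
    obtain ⟨w, w1, w2, w3, w4⟩ := hN d U o' (P x y) _ e' r' hd hU
      (inU _ _ k1 (by nlinarith)) he' (n2 x y h) (n2 _ _ k1) k2 (by linarith)
    exact ⟨w - P x y, w2, by rw [add_sub_cancel]; exact hB w w1 w3 w4⟩
  have sq : ∀ t ∈ Icc (-(1 / 2) : ℝ) (1 / 2), √(R - t ^ 2) ^ 2 = R - t ^ 2 ∧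
      69 / 100 ≤ √(R - t ^ 2) := fun t ht => by
    have h : t ^ 2 ≤ 1 / 4 := by nlinarith [ht.1, ht.2]
    exact ⟨Real.sq_sqrt (by linarith), Real.le_sqrt_of_sq_le (by linarith)⟩
  have arc : ∀ u v : ℝ, u ^ 2 + v ^ 2 = 1 → 7 / 25 ≤ u → |v| ≤ 24 / 25 → Good B ∨
      ∃ t ∈ Icc (-(1 / 2) : ℝ) (1 / 2), (u * √(R - t ^ 2) - v * t) ^ 2 +
        (v * √(R - t ^ 2) + u * t) ^ 2 = R ∧ (l - 1) * ⟪z, e'⟫ +
          ⟪p, e'⟫ * (u * √(R - t ^ 2) - v * t) + ⟪q, e'⟫ * (v * √(R - t ^ 2) + u * t) = 0 := by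
    intro u v huv hu hv
    have on : ∀ t ∈ Icc (-(1 / 2) : ℝ) (1 / 2),
        (u * √(R - t ^ 2) - v * t) ^ 2 + (v * √(R - t ^ 2) + u * t) ^ 2 = R := fun t ht => by
      have : (u * √(R - t ^ 2) - v * t) ^ 2 + (v * √(R - t ^ 2) + u * t) ^ 2 =
          (u ^ 2 + v ^ 2) * (√(R - t ^ 2) ^ 2 + t ^ 2) := by ring
      rw [this, huv, (sq t ht).1]
      ring
    have lo : ∀ t ∈ Icc (-(1 / 2) : ℝ) (1 / 2), -(3 / 10) ≤ u * √(R - t ^ 2) - v * t :=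
      fun t ht => by
        have a1 : v * t ≤ 24 / 25 * (1 / 2) := (le_abs_self _).trans (by
          rw [abs_mul]
          exact mul_le_mul hv (abs_le.2 ⟨ht.1, ht.2⟩) (abs_nonneg _) (by norm_num))
        nlinarith [(sq t ht).2]
    by_contra hn
    rw [not_or] at hn
    refine hn.1 ⟨(fun t => P (u * √(R - t ^ 2) - v * t) (v * √(R - t ^ 2) + u * t)) ''
      Icc (-(1 / 2)) (1 / 2), isPreconnected_Icc.image _ ?_, ?_, ?_, ?_⟩
    · rw [hP]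
      fun_prop
    · rintro _ ⟨t, ht, rfl⟩
      refine hB _ (inU _ _ (on t ht) (lo t ht)) (n2 _ _ (on t ht)) fun h0 => ?_
      rw [i2] at h0
      exact hn.2 ⟨t, ht, on t ht, h0⟩
    · refine ⟨_, ⟨1 / 2, by norm_num, rfl⟩, _, ⟨-(1 / 2), by norm_num, rfl⟩,
        eq_of_sq (norm_nonneg _) one_pos ?_⟩
      rw [PP, neg_sq]
      linarith
    · rintro _ ⟨t, ht, rfl⟩
      exact nb _ _ (on t ht) (lo t ht)
  rcases arc (7 / 25) (-(24 / 25)) (by norm_num) le_rfl (by norm_num [abs_le]) with h | h1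
  · exact h
  rcases arc 1 0 (by norm_num) (by norm_num) (by norm_num) with h | h2
  · exact h
  rcases arc (7 / 25) (24 / 25) (by norm_num) le_rfl (by norm_num [abs_le]) with h | h3
  · exact h
  obtain ⟨t₁, a1, b1, c1⟩ := h1
  obtain ⟨t₂, a2, b2, c2⟩ := h2
  obtain ⟨t₃, a3, b3, c3⟩ := h3
  obtain ⟨k1, k2, k3⟩ := three b1 b2 b3 c1 c2 c3
    (by linarith [(sq t₁ a1).2, a1.2, a2.1]) (by linarith [(sq t₃ a3).2, a3.1, a2.2])
  exact (nz ((mul_eq_zero.1 k1).resolve_left (by linarith)) k2 k3).elim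

end Pool.Agent.MP_66cee2_co.C3
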