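import Pool.Agent.MP_66cee2_co.C3.Spec
import Pool.Agent.MP_66cee2_co.H59.LA
import Pool.Agent.MP_66cee2_co.TR.Alg

/-
No family for `n ≤ 2 d`: the end of the count.
-/

namespace Pool.Agent.MP_66cee2_co.C3

open Set Pool.Agent.MP_66cee2_co.X Pool.Agent.MP_66cee2_co.D Pool.Agent.MP_66cee2_co.TR

namespace Finx

/-- the class of a vector. -/
def cls {n : ℕ} (W : Submodule ℝ (Ix n → ℝ)) (v : Ix n → ℝ) : Set (Ix n → ℝ) := {x | Eqv W x v}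

theorem eqv_trans {n : ℕ} {W : Submodule ℝ (Ix n → ℝ)} {a b c : Ix n → ℝ} (h : Eqv W a b)
    (h' : Eqv W b c) : Eqv W a c := by
  obtain ⟨s, hs, e⟩ := h
  obtain ⟨t, ht, e'⟩ := h'
  exact ⟨s * t, mul_ne_zero hs ht, fun w hw => by rw [e w hw, e' w hw, mul_assoc]⟩

theorem eqv_symm {n : ℕ} {W : Submodule ℝ (Ix n → ℝ)} {a b : Ix n → ℝ} (h : Eqv W a b) :
    Eqv W b a := by
  obtain ⟨s, hs, e⟩ := h
  exact ⟨s⁻¹, inv_ne_zero hs, fun w hw => by rw [e w hw, inv_mul_cancel_left₀ hs]⟩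

theorem cls_eq {n : ℕ} {W : Submodule ℝ (Ix n → ℝ)} {a b : Ix n → ℝ} (h : Eqv W a b) :
    cls W a = cls W b :=
  Set.ext fun _ => ⟨fun hx => eqv_trans hx h, fun hx => eqv_trans hx (eqv_symm h)⟩

theorem cls_ne {n : ℕ} {W : Submodule ℝ (Ix n → ℝ)} {a b : Ix n → ℝ} (ha : a ∈ W)
    (hp : 0 < lz a a) (h : lz a b = 0) : cls W a ≠ cls W b := by
  intro e
  have h1 : a ∈ cls W a := ⟨1, one_ne_zero, fun w _ => (one_mul _).symm⟩
  rw [e] at h1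
  obtain ⟨c, -, h2⟩ := h1
  rw [h2 a ha, h, mul_zero] at hp
  exact lt_irrefl _ hp

end Finx

open Finx

theorem sFin : SFin := by
  classical
  intro d n k O B W hd hO hB hL hS hG
  obtain ⟨G, g1, g2, g3, g4⟩ := hG
  by_contra hn
  have h1 : ∀ w q q' : Ix n → ℝ, w ∈ W → q ∈ W → q' ∈ W → 0 < lz w w → 0 < lz q q →
      0 < lz q' q' → lz w q = 0 → lz w q' = 0 → cls W q' = cls W q := by
    intro w q q' a1 a2 a3 a4 a5 a6 a7 a8
    refine cls_eq (by_contra fun h => hn ?_)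
    exact sAlg.2 n _ _ w (sAlg.1 n k W q q' hS a2 a3 a5 a6 h) ⟨a1, a7, a8⟩ a4
  let s : (Ix n → ℝ) → Bool := fun v =>
    decide (∃ v' ∈ W, 0 < lz v' v' ∧ lz v v' = 0 ∧ WellOrderingRel (cls W v) (cls W v'))
  have h2 : ∀ v v' : Ix n → ℝ, v ∈ W → v' ∈ W → 0 < lz v v → 0 < lz v' v' → lz v v' = 0 →
      (s v = true ↔ WellOrderingRel (cls W v) (cls W v')) := by
    intro v v' a1 a2 a3 a4 a5
    simp only [s, decide_eq_true_eq]
    refine ⟨fun ⟨x, b1, b2, b3, b4⟩ => ?_, fun h => ⟨v', a2, a4, a5, h⟩⟩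
    rwa [h1 v x v' a1 b1 a2 a3 b2 a4 b3 a5]
  refine laD hd O hO.opn hO.dense (fun v v' => lz v v' = 0) hO.orth B G hB g1 g2 g3 g4 s ?_
  rintro v v' ⟨y, hy, hyB⟩ ⟨z, hz, hzB⟩ h e
  have a1 := hL v y hy hyB
  have a2 := hL v' z hz hzB
  have a3 := hO.pos v ⟨y, hy⟩
  have a4 := hO.pos v' ⟨z, hz⟩
  have b1 := h2 v v' a1 a2 a3 a4 h
  have b2 := h2 v' v a2 a1 a4 a3 ((lz_comm _ _).trans h)
  rw [e] at b1
  rcases trichotomous_of WellOrderingRel (cls W v) (cls W v') with c | c | c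
  · exact asymm_of WellOrderingRel c (b2.1 (b1.2 c))
  · exact cls_ne a1 a3 h c
  · exact asymm_of WellOrderingRel c (b1.1 (b2.2 c))

end Pool.Agent.MP_66cee2_co.C3
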