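import Pool.Agent.MP_66cee2_co.C3.Spec

/-
Rows Fr and Nb: a frame vector and a neighbour off a hyperplane.
-/

namespace Pool.Agent.MP_66cee2_co.C3

open Set Metric Module Pool.Agent.MP_66cee2_co.X Pool.Agent.MP_66cee2_co.D
open Pool.Agent.MP_66cee2_co.TR Pool.Agent.MP_66cee2_co.Q
open scoped RealInnerProductSpace

namespace Nbx

theorem unit_smul {d : ℕ} (w : E d) (hw : w ≠ 0) : ‖(‖w‖⁻¹ : ℝ) • w‖ = 1 := by
  rw [norm_smul, norm_inv, norm_norm, inv_mul_cancel₀ (norm_ne_zero_iff.2 hw)]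

theorem sq3 {d : ℕ} (g v q : E d) (a b c : ℝ) (h1 : ⟪g, v⟫ = 0) (h2 : ⟪g, q⟫ = 0)
    (h3 : ⟪v, q⟫ = 0) :
    ‖a • g + b • v + c • q‖ ^ 2 = a ^ 2 * ‖g‖ ^ 2 + b ^ 2 * ‖v‖ ^ 2 + c ^ 2 * ‖q‖ ^ 2 := by
  rw [norm_add_sq_real, norm_add_sq_real, inner_add_left]
  simp only [real_inner_smul_left, real_inner_smul_right, h1, h2, h3, norm_smul, mul_pow,
    Real.norm_eq_abs, sq_abs]
  ring

theorem rank_pair {d : ℕ} (g v : E d) : finrank ℝ (Submodule.span ℝ ({g, v} : Set (E d))) ≤ 2 := by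
  classical
  have h := finrank_span_finset_le_card (R := ℝ) ({g, v} : Finset (E d))
  have h2 : ({g, v} : Finset (E d)).card ≤ 2 := Finset.card_le_two
  rw [Set.finrank, Finset.coe_pair] at h
  exact h.trans h2

end Nbx

theorem sFr : SFr := by
  intro d K e hK
  have hmem : e - K.starProjection e ∈ Kᗮ := K.sub_starProjection_mem_orthogonal e
  have hpr : K.starProjection e ∈ K := K.starProjection_apply_mem e
  by_cases hw : e - K.starProjection e = 0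
  · have hne : Kᗮ ≠ ⊥ := by
      intro h
      have h1 := K.finrank_add_finrank_orthogonal
      rw [h, finrank_bot, finrank_euclideanSpace_fin] at h1
      omega
    obtain ⟨w, hwK, hw0⟩ := Submodule.exists_mem_ne_zero_of_ne_bot hne
    refine ⟨(‖w‖⁻¹ : ℝ) • w, 0, Nbx.unit_smul w hw0, fun v hv => ?_, le_rfl, ?_⟩
    · rw [real_inner_smul_right, Submodule.inner_right_of_mem_orthogonal hv hwK, mul_zero]
    · rw [zero_smul, sub_zero, sub_eq_zero.1 hw]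
      exact hpr
  · refine ⟨(‖e - K.starProjection e‖⁻¹ : ℝ) • (e - K.starProjection e),
      ‖e - K.starProjection e‖, Nbx.unit_smul _ hw, fun v hv => ?_, norm_nonneg _, ?_⟩
    · rw [real_inner_smul_right, Submodule.inner_right_of_mem_orthogonal hv hmem, mul_zero]
    · rw [smul_smul, mul_inv_cancel₀ (norm_ne_zero_iff.2 hw), one_smul, sub_sub_cancel]
      exact hpr

theorem sNb : SFr → SNb := by
  intro hF d U o ζ y₀ e r hd hU hy he h1 h2 h3 hr
  obtain ⟨g, hg⟩ : ∃ g, g = ζ - o := ⟨_, rfl⟩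
  obtain ⟨v₀, hv₀⟩ : ∃ v₀, v₀ = y₀ - o := ⟨_, rfl⟩
  have hr0 : 0 ≤ r := h1 ▸ norm_nonneg _
  have hr2 : (0 : ℝ) < r ^ 2 := by linarith
  rw [← hg] at h1
  rw [← hv₀] at h2
  have h4 : ‖v₀ - g‖ = 1 := by
    rw [hg, hv₀, sub_sub_sub_cancel_right]
    exact h3
  have h5 : ⟪v₀, g⟫ = r ^ 2 - 1 / 2 := by
    have := norm_sub_sq_real v₀ g
    rw [h4, h1, h2] at this
    linarith
  obtain ⟨μ, hμ⟩ : ∃ μ : ℝ, μ * r ^ 2 = r ^ 2 - 1 / 2 :=
    ⟨(r ^ 2 - 1 / 2) / r ^ 2, div_mul_cancel₀ _ hr2.ne'⟩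
  have hμ0 : 0 < μ := by
    by_contra h
    have := mul_nonpos_of_nonpos_of_nonneg (not_lt.1 h) hr2.le
    linarith
  have hμ1 : μ < 1 := by
    by_contra h
    have := mul_le_mul_of_nonneg_right (not_lt.1 h) hr2.le
    linarith
  obtain ⟨v, hv⟩ : ∃ v, v = v₀ - μ • g := ⟨_, rfl⟩
  have hgv : ⟪g, v⟫ = 0 := by
    rw [hv, inner_sub_right, real_inner_smul_right, real_inner_self_eq_norm_sq, h1,
      real_inner_comm, h5]
    linarith
  have hvn : ‖v‖ ^ 2 = r ^ 2 - μ ^ 2 * r ^ 2 := by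
    rw [hv, norm_sub_sq_real, real_inner_smul_right, h5, h2, norm_smul, mul_pow, h1,
      Real.norm_eq_abs, sq_abs, ← hμ]
    ring
  have hvp : 0 < ‖v‖ := by
    have h6 : 0 < ‖v‖ ^ 2 := by
      rw [hvn]
      have : 0 < (1 - μ ^ 2) * r ^ 2 := mul_pos (by nlinarith) hr2
      linarith
    exact lt_of_le_of_ne (norm_nonneg _) fun h => by rw [← h] at h6; simp at h6
  obtain ⟨q, κ, hq1, hq2, -, hq4⟩ :=
    hF d (Submodule.span ℝ ({g, v} : Set (E d))) e (lt_of_le_of_lt (Nbx.rank_pair g v) (by omega))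
  have hgq : ⟪g, q⟫ = 0 := hq2 g (Submodule.subset_span (by simp))
  have hvq : ⟪v, q⟫ = 0 := hq2 v (Submodule.subset_span (by simp))
  have hden : ∀ t : ℝ, 1 + t ^ 2 ≠ 0 := fun t => by positivity
  obtain ⟨y, hy'⟩ : ∃ y : ℝ → E d, ∀ t, y t =
      o + (μ • g + ((1 - t ^ 2) / (1 + t ^ 2)) • v + (2 * t / (1 + t ^ 2) * ‖v‖) • q) :=
    ⟨_, fun _ => rfl⟩
  have hc : Continuous y := by
    rw [funext hy']
    have c1 : Continuous fun t : ℝ => (1 - t ^ 2) / (1 + t ^ 2) :=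
      Continuous.div (by fun_prop) (by fun_prop) hden
    have c2 : Continuous fun t : ℝ => 2 * t / (1 + t ^ 2) :=
      Continuous.div (by fun_prop) (by fun_prop) hden
    have c3 : Continuous fun t : ℝ => ((1 - t ^ 2) / (1 + t ^ 2)) • v := c1.smul continuous_const
    have c4 : Continuous fun t : ℝ => 2 * t / (1 + t ^ 2) * ‖v‖ := c2.mul continuous_const
    have c5 : Continuous fun t : ℝ => (2 * t / (1 + t ^ 2) * ‖v‖) • q := c4.smul continuous_const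
    exact continuous_const.add ((continuous_const.add c3).add c5)
  have hy0 : y 0 = y₀ := by
    rw [hy', hv, hv₀]
    simp
  have hab : ∀ t : ℝ, ((1 - t ^ 2) / (1 + t ^ 2)) ^ 2 * ‖v‖ ^ 2 +
      (2 * t / (1 + t ^ 2) * ‖v‖) ^ 2 * 1 ^ 2 = ‖v‖ ^ 2 := fun t => by
    have := hden t
    field_simp
    ring
  have ho : ∀ t, ‖y t - o‖ = r := fun t => by
    have h6 : ‖y t - o‖ ^ 2 = r ^ 2 := by
      rw [hy', add_sub_cancel_left, Nbx.sq3 g v q _ _ _ hgv hgq hvq, h1, hq1, add_assoc, hab, hvn]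
      ring
    exact (pow_left_inj₀ (norm_nonneg _) hr0 two_ne_zero).1 h6
  have hz : ∀ t, ‖y t - ζ‖ = 1 := fun t => by
    have h7 : y t - ζ =
        (μ - 1) • g + ((1 - t ^ 2) / (1 + t ^ 2)) • v + (2 * t / (1 + t ^ 2) * ‖v‖) • q := by
      rw [hy', sub_smul, one_smul]
      have : ζ = o + g := by rw [hg]; abel
      rw [this]
      abel
    have h6 : ‖y t - ζ‖ ^ 2 = 1 ^ 2 := by
      rw [h7, Nbx.sq3 g v q _ _ _ hgv hgq hvq, h1, hq1, add_assoc, hab, hvn]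
      linarith
    exact (pow_left_inj₀ (norm_nonneg _) zero_le_one two_ne_zero).1 h6
  have hin : ∀ t, ⟪y t - o, e⟫ * (1 + t ^ 2) =
      μ * ⟪g, e⟫ * (1 + t ^ 2) + ⟪v, e⟫ * (1 - t ^ 2) + 2 * t * (‖v‖ * ⟪q, e⟫) := fun t => by
    rw [hy', add_sub_cancel_left, inner_add_left, inner_add_left, real_inner_smul_left,
      real_inner_smul_left, real_inner_smul_left]
    have := hden t
    field_simp
  obtain ⟨δ, hδ, hball⟩ := Metric.isOpen_iff.1 (hU.preimage hc) 0 (by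
    rw [mem_preimage, hy0]; exact hy)
  by_contra hcon
  have hall : ∀ t : ℝ, |t| < δ →
      μ * ⟪g, e⟫ * (1 + t ^ 2) + ⟪v, e⟫ * (1 - t ^ 2) + 2 * t * (‖v‖ * ⟪q, e⟫) = 0 := by
    intro t ht
    have hm : y t ∈ U := hball (by rwa [mem_ball, Real.dist_eq, sub_zero])
    have h0 : ⟪y t - o, e⟫ = 0 := by
      by_contra h
      exact hcon ⟨y t, hm, hz t, ho t, h⟩
    rw [← hin, h0, zero_mul]
  have k0 := hall 0 (by simpa using hδ)
  have k1 := hall (δ / 2) (by rw [abs_of_pos (by linarith)]; linarith)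
  have k2 := hall (-(δ / 2)) (by rw [abs_neg, abs_of_pos (by linarith)]; linarith)
  have hC : ‖v‖ * ⟪q, e⟫ = 0 := by
    have : δ * (‖v‖ * ⟪q, e⟫) = 0 := by linarith
    exact (mul_eq_zero.1 this).resolve_left hδ.ne'
  have hA : μ * ⟪g, e⟫ = 0 := by
    have : δ ^ 2 * (μ * ⟪g, e⟫) = 0 := by
      have e1 : ⟪v, e⟫ = -(μ * ⟪g, e⟫) := by linarith
      rw [e1, hC] at k1
      linarith
    exact (mul_eq_zero.1 this).resolve_left (by positivity)
  have hB : ⟪v, e⟫ = 0 := by linarith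
  have hge : ⟪g, e⟫ = 0 := (mul_eq_zero.1 hA).resolve_left hμ0.ne'
  have hqe : ⟪q, e⟫ = 0 := (mul_eq_zero.1 hC).resolve_left hvp.ne'
  obtain ⟨a, b, hab'⟩ := Submodule.mem_span_pair.1 hq4
  have h8 : ⟪e - κ • q, e⟫ = 0 := by
    rw [← hab', inner_add_left, real_inner_smul_left, real_inner_smul_left, hge, hB]
    ring
  rw [inner_sub_left, real_inner_smul_left, hqe, mul_zero, sub_zero] at h8
  exact he (inner_self_eq_zero.1 h8)

end Pool.Agent.MP_66cee2_co.C3
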