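import Pool.Agent.MP_66cee2_co.C3.FoldG

/-
No family for `n ≤ 2 d`: two folds and a circle.
-/

namespace Pool.Agent.MP_66cee2_co.C3

open Set Metric Module Pool.Agent.MP_66cee2_co.X Pool.Agent.MP_66cee2_co.D
open Pool.Agent.MP_66cee2_co.TR Pool.Agent.MP_66cee2_co.Q
open scoped RealInnerProductSpace

/-- `B` contains a connected set with a unit pair whose points have unit neighbours in `B`. -/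
def Good {d : ℕ} (B : Set (E d)) : Prop :=
  ∃ G : Set (E d), IsPreconnected G ∧ G ⊆ B ∧ (∃ y ∈ G, ∃ z ∈ G, ‖y - z‖ = 1) ∧
    ∀ y ∈ G, ∃ m : E d, ‖m‖ = 1 ∧ y + m ∈ B

/-- row Fin: the end of the count. -/
def SFin : Prop :=
  ∀ (d n k : ℕ) (O : (Ix n → ℝ) → Set (E d)) (B : Set (E d)) (W : Submodule ℝ (Ix n → ℝ)),
    2 ≤ d → Fam O → IsOpen B → Lab O B W → Su k W → Good B → k + 2 ≤ n + 1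

/-- row Fr: a unit vector orthogonal to a subspace in the direction of a given vector. -/
def SFr : Prop :=
  ∀ (d : ℕ) (K : Submodule ℝ (E d)) (e : E d), finrank ℝ K < d →
    ∃ (q : E d) (κ : ℝ), ‖q‖ = 1 ∧ (∀ v ∈ K, ⟪v, q⟫ = 0) ∧ 0 ≤ κ ∧ e - κ • q ∈ K

/-- row Nb: a neighbour off a hyperplane. -/
def SNb : Prop :=
  ∀ (d : ℕ) (U : Set (E d)) (o ζ y₀ e : E d) (r : ℝ), 3 ≤ d → IsOpen U → y₀ ∈ U → e ≠ 0 →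
    ‖ζ - o‖ = r → ‖y₀ - o‖ = r → ‖y₀ - ζ‖ = 1 → 1 / 2 < r ^ 2 →
    ∃ y ∈ U, ‖y - ζ‖ = 1 ∧ ‖y - o‖ = r ∧ ⟪y - o, e⟫ ≠ 0

/-- row Circ: an arc on the circle. -/
def SCirc : Prop :=
  ∀ (d : ℕ) (o o' e e' : E d) (r r' : ℝ) (U B : Set (E d)), 3 ≤ d → ‖e‖ = 1 → e' ≠ 0 → IsOpen U →
    0 < r → 0 < r' → 99 / 100 ≤ r ^ 2 → r ^ 2 ≤ 1 → 99 / 100 ≤ r' ^ 2 → r' ^ 2 ≤ 1 →
    99 / 100 ≤ ‖o' - o‖ ^ 2 → ‖o' - o‖ ^ 2 ≤ 51 / 50 → 16 / 25 ≤ ⟪o' - o, e⟫ →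
    (∀ y, ‖y - o‖ = r → 0 < ⟪y - o, e⟫ → y ∈ U) →
    (∀ y ∈ U, ‖y - o'‖ = r' → ⟪y - o', e'⟫ ≠ 0 → y ∈ B) → Good B

/-- row Cap: a thick cap in the lune. -/
def SCap : Prop :=
  ∀ (d : ℕ) (a b : E d), a ≠ b → ‖a - b‖ ≤ 1 / 10 →
    ∃ (o e : E d) (r : ℝ) (F : Submodule ℝ (E d)) (φ : F × ℝ → E d), ‖e‖ = 1 ∧ 0 < r ∧
      99 / 100 ≤ r ^ 2 ∧ r ^ 2 ≤ 1 ∧ (∀ y, ‖y - o‖ = r → 0 < ⟪y - o, e⟫ → y ∈ Lune a b) ∧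
      d - 1 ≤ finrank ℝ F ∧ Continuous φ ∧
      (∀ p ∈ Cyl F, φ p ∈ Lune a b ∧ 199 / 200 ≤ ‖φ p - o‖ ^ 2 ∧ ‖φ p - o‖ ^ 2 ≤ 51 / 50 ∧
        16 / 25 ≤ ⟪φ p - o, e⟫) ∧
      (∀ p ∈ Cyl F, ∀ q ∈ Cyl F, ‖p.1‖ = 1 → ‖q.1‖ = 1 → ‖φ p - φ q‖ ≤ 1 → 0 < ⟪p.1, q.1⟫) ∧
      ∀ p ∈ Cyl F, ∀ q ∈ Cyl F, p.2 = 0 → q.2 = 1 → φ p ≠ φ q

/-- row Mid: the sphere around the midpoint. -/
def SMid : Prop :=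
  ∀ (d : ℕ) (a b o e : E d), a ≠ b → ‖a - b‖ ≤ 1 / 10 →
    199 / 200 ≤ ‖a - o‖ ^ 2 → ‖a - o‖ ^ 2 ≤ 51 / 50 → 16 / 25 ≤ ⟪a - o, e⟫ →
    199 / 200 ≤ ‖b - o‖ ^ 2 → ‖b - o‖ ^ 2 ≤ 51 / 50 → 16 / 25 ≤ ⟪b - o, e⟫ →
    ∃ (o' e' : E d) (r' : ℝ), e' ≠ 0 ∧ 0 < r' ∧ 99 / 100 ≤ r' ^ 2 ∧ r' ^ 2 ≤ 1 ∧
      99 / 100 ≤ ‖o' - o‖ ^ 2 ∧ ‖o' - o‖ ^ 2 ≤ 51 / 50 ∧ 16 / 25 ≤ ⟪o' - o, e⟫ ∧
      ∀ y, ‖y - o'‖ = r' → ⟪y - o', e'⟫ ≠ 0 → y ∈ Lune a b ∪ Lune b a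

/-- the topological theorem for `n ≤ 2 d`. -/
def STC : Prop :=
  ∀ (d n : ℕ) (O : (Ix n → ℝ) → Set (E d)), 3 ≤ d → n ≤ 2 * d → ¬ Fam O

theorem sTC_of (h0 : STri) (h1 : SIni) (h2 : SLeb) (h3 : SRel) (h4 : SCap) (h5 : SMid)
    (h6 : SCirc) (h7 : SFin) : STC := by
  intro d n O hd hn hO
  obtain ⟨a, b, L, a1, a2, a3, a4⟩ := h0 d n O (by omega) hO
  obtain ⟨o, e, r, F, φ, c1, c2, c3, c4, c5, c6, c7, c8, c9, c10⟩ := h4 d a b a1 a2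
  obtain ⟨W', _, ⟨p, hp, rfl⟩, _, ⟨q, hq, rfl⟩, b1, b2, b3, b4, b5⟩ :=
    foldG h2 h3 hO (isOpen_lune a b) a4 (h1 n d L a3) F φ c7 (fun p hp => (c8 p hp).1) c6 c9 c10
      (ε := 1 / 10) (by norm_num)
  obtain ⟨o', e', r', d1, d2, d3, d4, d5, d6, d7, d8⟩ := h5 d (φ p) (φ q) o e b1 b2
    (c8 p hp).2.1 (c8 p hp).2.2.1 (c8 p hp).2.2.2 (c8 q hq).2.1 (c8 q hq).2.2.1 (c8 q hq).2.2.2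
  have hG := h6 d o o' e e' r r' (Lune a b) (Lune a b ∩ (Lune (φ p) (φ q) ∪ Lune (φ q) (φ p))) hd
    c1 d1 (isOpen_lune a b) c2 d2 c3 c4 d3 d4 d5 d6 d7 c5 fun y hy k1 k2 => ⟨hy, d8 y k1 k2⟩
  have := h7 d n _ O _ W' (by omega) hO
    ((isOpen_lune a b).inter ((isOpen_lune _ _).union (isOpen_lune _ _)))
    (fun v y hy hB => hB.2.elim (fun h => b4 v y hy ⟨hB.1, h⟩) fun h => b5 v y hy ⟨hB.1, h⟩) b3 hG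
  omega

end Pool.Agent.MP_66cee2_co.C3
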